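import Mathlib

set_option autoImplicit false

open MeasureTheory Filter Set Topology Cardinal

namespace Pool.Agent.H.MP_83934b_an

abbrev S : Type := AddCircle (1 : ℝ)

def PI (f : Equiv.Perm S) : Prop :=
  ∃ F : Set S, F.Finite ∧ ∀ x ∉ F, ∃ c : S,
    (∀ᶠ y in 𝓝 x, f y = y + c) ∨ (∀ᶠ y in 𝓝 x, f y = -y + c)

def LM (f : S → S) : Prop :=
  ∀ A : Set S, NullMeasurableSet A volume → NullMeasurableSet (f ⁻¹' A) volume

instance : Nontrivial S := ⟨((1 / 2 : ℝ) : S), ((1 : ℝ) : S), fun h => by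
  have := (AddCircle.coe_eq_coe_iff_of_mem_Ioc (p := (1 : ℝ)) (a := 0)
    (by constructor <;> norm_num) (by constructor <;> norm_num)).1 h
  norm_num at this⟩

instance (x : S) : (𝓝[≠] x).NeBot := inferInstance

instance : NullSingletonClass (volume : Measure S) := inferInstance

lemma local_form {f : Equiv.Perm S} (hf : PI f) :
    ∃ F : Set S, F.Finite ∧ ∀ x ∉ F, ∃ φ : S ≃ₜ S, MeasurePreserving φ volume volume ∧
      ∀ᶠ y in 𝓝 x, f y = φ y := by
  obtain ⟨F, hF, h⟩ := hf
  refine ⟨F, hF, fun x hx => ?_⟩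
  obtain ⟨c, h | h⟩ := h x hx
  · exact ⟨Homeomorph.addRight c, measurePreserving_add_right volume c, h⟩
  · refine ⟨(Homeomorph.neg S).trans (Homeomorph.addRight c), ?_, h⟩
    exact (measurePreserving_add_right volume c).comp (Measure.measurePreserving_neg volume)

lemma mp_of_cover (f : Equiv.Perm S) (A : ℕ → Set S) (hA : ∀ n, MeasurableSet (A n))
    (hd : Pairwise (Function.onFun Disjoint A)) (φ : ℕ → S ≃ₜ S)
    (hφ : ∀ n, MeasurePreserving (φ n) volume volume) (hfφ : ∀ n, ∀ y ∈ A n, f y = φ n y)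
    (hc : (⋃ n, A n)ᶜ.Countable) : MeasurePreserving f volume volume := by
  have hsplit : ∀ B : Set S, f ⁻¹' B = (⋃ n, A n ∩ φ n ⁻¹' B) ∪ (f ⁻¹' B ∩ (⋃ n, A n)ᶜ) := by
    intro B
    ext y
    simp only [mem_preimage, mem_union, mem_iUnion, mem_inter_iff, mem_compl_iff]
    constructor
    · intro hy
      by_cases h : ∃ n, y ∈ A n
      · obtain ⟨n, hn⟩ := h
        exact Or.inl ⟨n, hn, hfφ n y hn ▸ hy⟩
      · exact Or.inr ⟨hy, h⟩
    · rintro (⟨n, hn, hy⟩ | ⟨hy, _⟩)
      · rw [hfφ n y hn]; exact hy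
      · exact hy
  have hm : Measurable f := by
    intro B hB
    rw [hsplit B]
    refine (MeasurableSet.iUnion fun n => (hA n).inter ((hφ n).measurable hB)).union ?_
    exact (hc.mono inter_subset_right).measurableSet
  refine ⟨hm, ?_⟩
  ext B hB
  rw [Measure.map_apply hm hB]
  have himg : ∀ n, MeasurableSet (φ n '' A n) := fun n =>
    (φ n).measurableEmbedding.measurableSet_image.2 (hA n)
  have h1 : volume (f ⁻¹' B) = volume (⋃ n, A n ∩ φ n ⁻¹' B) := by
    rw [hsplit B]
    apply measure_congr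
    apply union_ae_eq_left_of_ae_eq_empty
    exact ae_eq_empty.2 ((hc.mono inter_subset_right).measure_zero _)
  have h2 : volume (⋃ n, A n ∩ φ n ⁻¹' B) = ∑' n, volume (A n ∩ φ n ⁻¹' B) :=
    measure_iUnion (fun i j hij => (hd hij).mono inter_subset_left inter_subset_left)
      (fun n => (hA n).inter ((hφ n).measurable hB))
  have h3 : ∀ n, volume (A n ∩ φ n ⁻¹' B) = volume (φ n '' A n ∩ B) := by
    intro n
    rw [← (hφ n).measure_preimage ((himg n).inter hB).nullMeasurableSet, preimage_inter,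
      (φ n).injective.preimage_image]
  have hfi : ∀ n, φ n '' A n = f '' A n := fun n =>
    image_congr fun y hy => (hfφ n y hy).symm
  have h4 : volume (⋃ n, φ n '' A n ∩ B) = ∑' n, volume (φ n '' A n ∩ B) := by
    refine measure_iUnion (fun i j hij => ?_) (fun n => (himg n).inter hB)
    refine Disjoint.mono inter_subset_left inter_subset_left ?_
    rw [hfi, hfi]
    exact disjoint_image_of_injective f.injective (hd hij)
  have h5 : volume (⋃ n, φ n '' A n ∩ B) = volume B := by
    apply measure_congr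
    rw [← iUnion_inter]
    apply inter_ae_eq_right_of_ae_eq_univ
    rw [ae_eq_univ]
    simp_rw [hfi]
    rw [← image_iUnion, ← f.image_compl]
    exact (hc.image _).measure_zero _
  rw [h1, h2, ← h5, h4]
  exact tsum_congr h3

lemma mp_of_PI {f : Equiv.Perm S} (hf : PI f) : MeasurePreserving f volume volume := by
  obtain ⟨F, hF, h⟩ := local_form hf
  have h' : ∀ x : S, ∃ (V : Set S) (φ : S ≃ₜ S), IsOpen V ∧ MeasurePreserving φ volume volume ∧
      (∀ y ∈ V, f y = φ y) ∧ (x ∉ F → x ∈ V) := by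
    intro x
    by_cases hx : x ∈ F
    · exact ⟨∅, Homeomorph.refl S, isOpen_empty, MeasurePreserving.id _, by simp, by simp [hx]⟩
    · obtain ⟨φ, hφ, he⟩ := h x hx
      obtain ⟨V, hV, hVo, hxV⟩ := eventually_nhds_iff.1 he
      exact ⟨V, φ, hVo, hφ, hV, fun _ => hxV⟩
  choose V φ hVo hφ hfφ hxV using h'
  obtain ⟨t, -, htc, hcov⟩ := TopologicalSpace.countable_cover_nhdsWithin (f := V) (s := Fᶜ)
    (fun x hx => mem_nhdsWithin_of_mem_nhds ((hVo x).mem_nhds (hxV x hx)))
  obtain ⟨e, he⟩ := (htc.insert 0).exists_eq_range (insert_nonempty _ _)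
  refine mp_of_cover f (disjointed fun n => V (e n))
    (MeasurableSet.disjointed fun n => (hVo _).measurableSet) (disjoint_disjointed _)
    (fun n => φ (e n)) (fun n => hφ _) (fun n y hy => hfφ _ y (disjointed_subset _ n hy)) ?_
  rw [iUnion_disjointed]
  refine hF.countable.mono ?_
  intro y hy
  by_contra hyF
  have := hcov hyF
  simp only [mem_iUnion] at this
  obtain ⟨x, hx, hyx⟩ := this
  have : x ∈ range e := he ▸ mem_insert_of_mem _ hx
  obtain ⟨n, rfl⟩ := this
  exact hy (mem_iUnion.2 ⟨n, hyx⟩)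

lemma cantor_null : volume cantorSet = 0 := by
  have hfin : volume cantorSet ≠ ⊤ := isCompact_cantorSet.measure_lt_top.ne
  have h1 : volume ((fun x : ℝ => x / 3) '' cantorSet) = ENNReal.ofReal (1 / 3) * volume cantorSet := by
    have : (fun x : ℝ => x / 3) '' cantorSet = (fun x : ℝ => 3 * x) ⁻¹' cantorSet := by
      ext x
      simp only [mem_image, mem_preimage]
      constructor
      · rintro ⟨y, hy, rfl⟩
        have : 3 * (y / 3) = y := by ring
        rwa [this]
      · intro hx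
        exact ⟨3 * x, hx, by ring⟩
    rw [this, Real.volume_preimage_mul_left (by norm_num)]
    norm_num
  have h2 : volume ((fun x : ℝ => (2 + x) / 3) '' cantorSet)
      = ENNReal.ofReal (1 / 3) * volume cantorSet := by
    have : (fun x : ℝ => (2 + x) / 3) '' cantorSet
        = (fun x : ℝ => 3 * x) ⁻¹' ((fun x : ℝ => -2 + x) ⁻¹' cantorSet) := by
      ext x
      simp only [mem_image, mem_preimage]
      constructor
      · rintro ⟨y, hy, rfl⟩
        have : -2 + 3 * ((2 + y) / 3) = y := by ring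
        rwa [this]
      · intro hx
        exact ⟨-2 + 3 * x, hx, by ring⟩
    rw [this, Real.volume_preimage_mul_left (by norm_num), measure_preimage_add]
    norm_num
  have h3 : volume cantorSet ≤ ENNReal.ofReal (1 / 3) * volume cantorSet
      + ENNReal.ofReal (1 / 3) * volume cantorSet := by
    calc volume cantorSet = volume ((fun x : ℝ => x / 3) '' cantorSet
          ∪ (fun x : ℝ => (2 + x) / 3) '' cantorSet) := by rw [← cantorSet_eq_union_halves]
      _ ≤ _ := (measure_union_le _ _).trans (by rw [h1, h2])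
  lift volume cantorSet to NNReal using hfin with v hv
  have h4 : (v : ℝ) ≤ 1 / 3 * v + 1 / 3 * v := by
    have := ENNReal.toReal_mono (by finiteness) h3
    rw [ENNReal.toReal_add (by finiteness) (by finiteness), ENNReal.toReal_mul,
      ENNReal.toReal_ofReal (by norm_num)] at this
    simpa using this
  have h5 : (v : ℝ) = 0 := le_antisymm (by linarith) v.2
  simpa using h5

lemma exists_null : ∃ N : Set S, volume N = 0 ∧ 𝔠 ≤ #N := by
  let C : Set ℝ := (fun x : ℝ => 2 * x) ⁻¹' cantorSet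
  have hC0 : volume C = 0 := by
    simp only [C]
    rw [Real.volume_preimage_mul_left (by norm_num), cantor_null, mul_zero]
  have hsub : ∀ x ∈ C, x ∈ Ioc (-1 / 4 : ℝ) (-1 / 4 + 1) := by
    intro x hx
    have := cantorSet_subset_unitInterval hx
    simp only [mem_Icc] at this
    constructor <;> linarith [this.1, this.2]
  have hCc : IsCompact C := by
    have : C = (fun x : ℝ => x / 2) '' cantorSet := by
      ext x
      simp only [C, mem_image, mem_preimage]
      constructor
      · intro hx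
        exact ⟨2 * x, hx, by ring⟩
      · rintro ⟨y, hy, rfl⟩
        have : 2 * (y / 2) = y := by ring
        rwa [this]
    rw [this]
    exact isCompact_cantorSet.image (by fun_prop)
  refine ⟨((↑) : ℝ → S) '' C, ?_, ?_⟩
  · have hm : MeasurableSet (((↑) : ℝ → S) '' C) :=
      (hCc.image (AddCircle.continuous_mk' 1)).measurableSet
    rw [← (AddCircle.measurePreserving_mk 1 (-1 / 4)).measure_preimage hm.nullMeasurableSet,
      Measure.restrict_apply' measurableSet_Ioc]
    refine measure_mono_null ?_ hC0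
    rintro x ⟨⟨y, hy, hyx⟩, hx⟩
    have := (AddCircle.coe_eq_coe_iff_of_mem_Ioc (hsub y hy) hx).1 hyx
    exact this ▸ hy
  · have hinj : InjOn ((↑) : ℝ → S) C := fun x hx y hy hxy =>
      (AddCircle.coe_eq_coe_iff_of_mem_Ioc (hsub x hx) (hsub y hy)).1 hxy
    rw [mk_image_eq_of_injOn _ _ hinj]
    have h1 : Cardinal.mk cantorSet = 𝔠 := by
      rw [mk_congr cantorSetEquivNatToBool]
      simp
    rw [← h1]
    refine mk_le_of_injective (f := fun x : cantorSet => (⟨x.1 / 2, ?_⟩ : C)) ?_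
    · have : 2 * (x.1 / 2) = x.1 := by ring
      simp only [C, mem_preimage, this]
      exact x.2
    · intro x y hxy
      have := congrArg Subtype.val hxy
      simp only at this
      ext
      linarith

def Z : Set (Filter S) :=
  {F | F ≤ cofinite ∧ ∃ s : ℕ → Set S, (∀ n, MeasurableSet (s n)) ∧ F = ⨅ n, 𝓟 (s n)}

lemma card_Z : #Z ≤ 𝔠 := by
  have h1 : #{t : Set S | MeasurableSet t} ≤ 𝔠 := by
    obtain ⟨b, hb, hgen⟩ := MeasurableSpace.CountablyGenerated.isCountablyGenerated (α := S)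
    have := MeasurableSpace.cardinal_measurableSet_le_continuum (s := b)
      ((le_aleph0_iff_set_countable.2 hb).trans aleph0_le_continuum)
    rw [← hgen] at this
    exact this
  have h2 : #Z ≤ #(ℕ → {t : Set S | MeasurableSet t}) := by
    have : ∀ F : Z, ∃ s : ℕ → {t : Set S | MeasurableSet t}, F.1 = ⨅ n, 𝓟 (s n).1 := by
      rintro ⟨F, -, s, hs, rfl⟩
      exact ⟨fun n => ⟨s n, hs n⟩, rfl⟩
    choose s hs using this
    refine mk_le_of_injective (f := s) fun F G h => ?_
    ext1
    rw [hs F, hs G, h]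
  refine h2.trans ?_
  rw [← power_def, mk_nat, ← continuum_power_aleph0]
  exact power_le_power_right h1

lemma map_mem_Z (f : Equiv.Perm S) (hf : Measurable f.symm) {F : Filter S} (hF : F ∈ Z) :
    map f F ∈ Z := by
  obtain ⟨h1, s, hs, rfl⟩ := hF
  refine ⟨(map_mono h1).trans f.injective.tendsto_cofinite, fun n => f.symm ⁻¹' s n,
    fun n => hf (hs n), ?_⟩
  rw [← comap_equiv_symm, comap_iInf]
  simp only [comap_principal]

lemma nhdsNE_mem_Z (x : S) : 𝓝[≠] x ∈ Z := by
  refine ⟨nhdsNE_le_cofinite x, fun n => Metric.ball x (1 / ((n : ℝ) + 1)) ∩ {x}ᶜ,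
    fun n => Metric.isOpen_ball.measurableSet.inter (measurableSet_singleton x).compl, ?_⟩
  have := (nhdsWithin_hasBasis (Metric.nhds_basis_ball_inv_nat_succ (x := x)) {x}ᶜ).eq_iInf
  exact this

def b0 (x : S) : Z := ⟨𝓝[≠] x, nhdsNE_mem_Z x⟩

lemma b0_inj : Function.Injective b0 := by
  intro x y h
  have h' : 𝓝[≠] x = 𝓝[≠] y := congrArg Subtype.val h
  have hne : (𝓝[≠] x).NeBot := inferInstance
  have h1 : 𝓝[≠] x ≤ 𝓝 x ⊓ 𝓝 y := le_inf nhdsWithin_le_nhds (h' ▸ nhdsWithin_le_nhds)
  exact eq_of_nhds_neBot (hne.mono h1)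

lemma exists_b : ∃ (N : Set S) (b : S ≃ Z), volume N = 0 ∧ ∀ x ∉ N, b x = b0 x := by
  classical
  obtain ⟨N, hN, hc⟩ := exists_null
  have h1 : #N = #((b0 '' Nᶜ)ᶜ : Set Z) := by
    apply le_antisymm
    · rw [← mk_image_eq (s := N) b0_inj]
      apply mk_le_mk_of_subset
      rintro _ ⟨x, hx, rfl⟩ ⟨y, hy, hxy⟩
      exact hy (b0_inj hxy ▸ hx)
    · exact (mk_set_le _).trans (card_Z.trans hc)
  obtain ⟨e⟩ := Cardinal.eq.1 h1
  let e2 : (Nᶜ : Set S) ≃ (b0 '' Nᶜ : Set Z) := Equiv.Set.image b0 Nᶜ b0_inj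
  let b : S ≃ Z := (Equiv.Set.sumCompl N).symm.trans ((Equiv.sumCongr e e2).trans
    ((Equiv.sumComm _ _).trans (Equiv.Set.sumCompl (b0 '' Nᶜ))))
  refine ⟨N, b, hN, fun x hx => ?_⟩
  simp only [b, Equiv.trans_apply]
  rw [Equiv.Set.sumCompl_symm_apply_of_notMem hx]
  simp [e2]

def act (f : Equiv.Perm S) (h1 : Measurable f) (h2 : Measurable f.symm) : Equiv.Perm Z where
  toFun F := ⟨map f F.1, map_mem_Z f h2 F.2⟩
  invFun F := ⟨map f.symm F.1, map_mem_Z f.symm h1 F.2⟩
  left_inv F := by ext1; simp [map_map]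
  right_inv F := by ext1; simp [map_map]

lemma mp_symm {f : Equiv.Perm S} (hf : PI f) : MeasurePreserving f.symm volume volume := by
  have h := mp_of_PI hf
  have hs : Measurable f.symm := by
    intro B hB
    rw [← f.image_eq_preimage_symm]
    exact hB.image_of_measurable_injOn h.measurable f.injective.injOn
  exact MeasurePreserving.symm (⟨f, h.measurable, hs⟩ : S ≃ᵐ S) h

lemma LM_of_ae {g h : S → S} (hg : MeasurePreserving g volume volume) (hh : h =ᵐ[volume] g) :
    LM h ∧ ∀ A : Set S, NullMeasurableSet A volume → volume (h ⁻¹' A) = volume A := by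
  have key : ∀ A : Set S, (h ⁻¹' A : Set S) =ᵐ[volume] (g ⁻¹' A : Set S) := fun A =>
    hh.preimage A
  refine ⟨fun A hA => ?_, fun A hA => ?_⟩
  · exact (hA.preimage hg.quasiMeasurePreserving).congr (key A).symm
  · rw [measure_congr (key A), hg.measure_preimage hA]

lemma act_val (f : Equiv.Perm S) (h1 : Measurable f) (h2 : Measurable f.symm) (F : Z) :
    (act f h1 h2 F).1 = map f F.1 := rfl

lemma exists_sigma (b : S ≃ Z) : ∃ σ : Equiv.Perm S → Equiv.Perm S,
    ∀ (f : Equiv.Perm S), Measurable f → Measurable f.symm → ∀ x : S,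
      (b (σ f x)).1 = map f (b x).1 := by
  classical
  refine ⟨fun f : Equiv.Perm S =>
    if h : Measurable f ∧ Measurable f.symm then b.trans ((act f h.1 h.2).trans b.symm) else 1, ?_⟩
  intro f h1 h2 x
  have h : Measurable f ∧ Measurable f.symm := ⟨h1, h2⟩
  simp only [dif_pos h, Equiv.trans_apply, Equiv.apply_symm_apply, act_val]

theorem main : ∃ σ : Equiv.Perm S → Equiv.Perm S,
    (∀ f g, PI f → PI g → σ (f * g) = σ f * σ g) ∧
    (∀ f g, PI f → PI g → {x | f x ≠ g x}.Finite → σ f = σ g) ∧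
    ∀ f, PI f → LM (σ f) ∧ LM (σ f).symm ∧
      (∀ A : Set S, NullMeasurableSet A volume → volume (σ f ⁻¹' A) = volume A) ∧
      ∀ᵐ x ∂(volume : Measure S), σ f x = f x := by
  obtain ⟨N, b, hN, hb⟩ := exists_b
  obtain ⟨σ, hσ⟩ := exists_sigma b
  have hM : ∀ f : Equiv.Perm S, PI f → Measurable f := fun f hf => (mp_of_PI hf).measurable
  have hM' : ∀ f : Equiv.Perm S, PI f → Measurable f.symm := fun f hf => (mp_symm hf).measurable
  refine ⟨σ, fun f g hf hg => ?_, fun f g hf hg hfg => ?_, fun f hf => ?_⟩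
  · have h1 : Measurable (f * g) := (hM f hf).comp (hM g hg)
    have h2 : Measurable (f * g).symm := (hM' g hg).comp (hM' f hf)
    ext x
    apply b.injective
    ext1
    rw [Equiv.Perm.mul_apply, hσ _ h1 h2, hσ _ (hM f hf) (hM' f hf), hσ _ (hM g hg) (hM' g hg),
      map_map, Equiv.Perm.coe_mul]
  · ext x
    apply b.injective
    ext1
    rw [hσ _ (hM f hf) (hM' f hf), hσ _ (hM g hg) (hM' g hg)]
    have : ∀ᶠ y in cofinite, f y = g y := hfg
    exact map_congr (this.filter_mono (b x).2.1)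
  · have hae : ∀ᵐ x ∂(volume : Measure S), σ f x = f x := by
      obtain ⟨F, hF, h⟩ := local_form hf
      have h1 : ∀ᵐ x ∂(volume : Measure S), x ∉ N := measure_eq_zero_iff_ae_notMem.1 hN
      have h2 := (mp_of_PI hf).quasiMeasurePreserving.ae (p := fun x => x ∉ N) h1
      have hF0 : volume F = 0 := hF.measure_zero _
      have h3 : ∀ᵐ x ∂(volume : Measure S), x ∉ F := measure_eq_zero_iff_ae_notMem.1 hF0
      filter_upwards [h1, h2, h3] with x hx1 hx2 hx3
      obtain ⟨φ, -, he⟩ := h x hx3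
      apply b.injective
      ext1
      rw [hσ _ (hM f hf) (hM' f hf), hb _ hx1, hb _ hx2]
      change map f (𝓝[≠] x) = 𝓝[≠] (f x)
      rw [map_congr (he.filter_mono nhdsWithin_le_nhds), φ.map_punctured_nhds_eq, he.self_of_nhds]
    have hae2 : ∀ᵐ y ∂(volume : Measure S), (σ f).symm y = f.symm y := by
      have h4 := (mp_symm hf).quasiMeasurePreserving.ae (p := fun x => σ f x = f x) hae
      filter_upwards [h4] with y hy
      rw [Equiv.symm_apply_eq, hy, Equiv.apply_symm_apply]
    have k1 := LM_of_ae (g := f) (h := σ f) (mp_of_PI hf) hae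
    have k2 := LM_of_ae (g := f.symm) (h := (σ f).symm) (mp_symm hf) hae2
    exact ⟨k1.1, k2.1, k1.2, hae⟩

end Pool.Agent.H.MP_83934b_an
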